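import Pool.Agent.helper83.GR.Spec

set_option autoImplicit false

namespace Pool.Agent.GR

open Pool.Agent.helper58.DC Pool.Agent.DI

/-- a prime ideal of the ring of algebraic integers which contains `p` and lies in `M` is `M` -/
theorem VAL_dim (p : ℕ) (M : Ideal (integralClosure ℤ ℂ)) (h : Setup p M)
    (a : integralClosure ℤ ℂ) (ha : a ∈ M) :
    ∃ (k : ℕ) (c : integralClosure ℤ ℂ), c ∉ M ∧ (p : integralClosure ℤ ℂ) ∣ c * a ^ k := by
  by_contra hcon
  push Not at hcon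
  let S : Submonoid (integralClosure ℤ ℂ) :=
    { carrier := {x | ∃ (c : integralClosure ℤ ℂ) (k : ℕ), c ∉ M ∧ x = c * a ^ k}
      one_mem' := ⟨1, 0, h.one_not_mem, by simp⟩
      mul_mem' := by
        rintro x y ⟨c, k, hc, rfl⟩ ⟨d, l, hd, rfl⟩
        exact ⟨c * d, k + l, h.mul_not_mem hc hd, by ring⟩ }
  have hdisj : Disjoint ((Ideal.span {(p : integralClosure ℤ ℂ)} :
      Ideal (integralClosure ℤ ℂ)) : Set (integralClosure ℤ ℂ)) S := by
    rw [Set.disjoint_left]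
    rintro x hx ⟨c, k, hc, rfl⟩
    exact hcon k c hc (Ideal.mem_span_singleton.1 hx)
  obtain ⟨Q, hQ, hpQ, hQS⟩ := Ideal.exists_le_prime_disjoint _ S hdisj
  rw [Set.disjoint_left] at hQS
  have hQM : Q ≤ M := by
    intro x hx
    by_contra hxM
    exact hQS hx ⟨x, 0, hxM, by simp⟩
  have haQ : a ∉ Q := fun haQ => hQS haQ ⟨1, 1, h.one_not_mem, by simp⟩
  have hlt : Q.comap (algebraMap ℤ (integralClosure ℤ ℂ)) <
      M.comap (algebraMap ℤ (integralClosure ℤ ℂ)) :=
    Ideal.comap_lt_comap_of_integral_mem_sdiff hQM ⟨ha, haQ⟩ (Algebra.IsIntegral.isIntegral a)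
  have hpQ' : (p : integralClosure ℤ ℂ) ∈ Q := hpQ (Ideal.mem_span_singleton_self _)
  have hle : Ideal.span {(p : ℤ)} ≤ Q.comap (algebraMap ℤ (integralClosure ℤ ℂ)) := by
    rw [Ideal.span_singleton_le_iff_mem, Ideal.mem_comap]
    simpa using hpQ'
  have hmax : (Ideal.span {(p : ℤ)}).IsMaximal :=
    PrincipalIdealRing.isMaximal_of_irreducible (Nat.prime_iff_prime_int.1 h.pr).irreducible
  have hne : M.comap (algebraMap ℤ (integralClosure ℤ ℂ)) ≠ ⊤ := by
    intro htop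
    have h1 : (1 : ℤ) ∈ M.comap (algebraMap ℤ (integralClosure ℤ ℂ)) := by
      rw [htop]
      trivial
    rw [Ideal.mem_comap, map_one] at h1
    exact h.one_not_mem h1
  have e1 := hmax.eq_of_le hne (hle.trans hlt.le)
  rw [← e1] at hlt
  exact absurd hle (not_le_of_gt hlt)

theorem VAL : VAL_stmt := by
  intro p M h z hz
  obtain ⟨a, b, ha, hb, e⟩ := hz
  obtain ⟨k, c, hc, x, hx⟩ := VAL_dim p M h a ha
  refine ⟨k, z ^ k / p, ⟨x, c * b ^ k, ?_, ?_⟩, ?_⟩
  · apply h.mul_not_mem hc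
    intro hbk
    exact hb (h.prime.mem_of_pow_mem k hbk)
  · have hp := h.p_ne
    have hx' : (c : ℂ) * (a : ℂ) ^ k = (p : ℂ) * (x : ℂ) := by
      have := congrArg (fun t : integralClosure ℤ ℂ => (t : ℂ)) hx
      simpa using this
    rw [← e] at hx'
    have : ((c * b ^ k : integralClosure ℤ ℂ) : ℂ) = (c : ℂ) * (b : ℂ) ^ k := by simp
    rw [this, div_mul_eq_mul_div, div_eq_iff hp]
    rw [mul_pow] at hx'
    linear_combination hx'
  · have hp := h.p_ne
    rw [pow_one]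
    field_simp

end Pool.Agent.GR
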